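import Pool.Agent.Helper13.TR.StB

/-!
# Project TR, module IND: small inductive dimension
-/

set_option autoImplicit false

namespace Pool.Agent.Helper80.TR

open Set Topology Pool.Agent.Helper13.TR

private lemma ind_mono : ∀ (n : ℕ) (Y Z : Type) [TopologicalSpace Y] [TopologicalSpace Z] (f : Z → Y),
    IsEmbedding f → IndLT n Y → IndLT n Z := by
  intro n
  induction n with
  | zero =>
    intro Y Z _ _ f _ h
    have h' : IsEmpty Y := h
    show IsEmpty Z
    exact ⟨fun z => h'.elim (f z)⟩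
  | succ n ih =>
    intro Y Z _ _ f hf h z U hU hz
    obtain ⟨U', hU', rfl⟩ := hf.isOpen_iff.1 hU
    obtain ⟨V', hV', hzV, hVU, hfr⟩ := h (f z) U' hU' hz
    refine ⟨f ⁻¹' V', hV'.preimage hf.continuous, hzV, preimage_mono hVU, ?_⟩
    have hsub : frontier (f ⁻¹' V') ⊆ f ⁻¹' frontier V' := hf.continuous.frontier_preimage_subset V'
    have hm : MapsTo f (frontier (f ⁻¹' V')) (frontier V') := fun x hx => hsub hx
    refine ih ↥(frontier V') ↥(frontier (f ⁻¹' V')) (hm.restrict f _ _) ?_ hfr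
    exact IsEmbedding.of_comp (by fun_prop) continuous_subtype_val (hf.comp IsEmbedding.subtypeVal)

private lemma ind_z0 (Z : Type) [TopologicalSpace Z] [T2Space Z] (L : Set Z) (hL : IsCompact L)
    (h : IndLT 1 ↥L) : Z0 L := by
  refine ⟨hL, ?_⟩
  intro t htL ht x hx y hy
  by_contra hne
  -- pass to the subspace `L`
  have hxL : x ∈ L := htL hx
  have hyL : y ∈ L := htL hy
  obtain ⟨V, hV, hxV, hVU, hfr⟩ := h ⟨x, hxL⟩ {w | w ≠ (⟨y, hyL⟩ : L)} isOpen_ne
    (by intro h'; exact hne (congrArg Subtype.val h'))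
  have hfe : frontier V = ∅ := by
    have h' : IsEmpty ↥(frontier V) := hfr
    exact isEmpty_coe_sort.1 h'
  have hcl : IsClopen V := isClopen_iff_frontier_eq_empty.2 hfe
  have hpre : IsPreconnected ((↑) ⁻¹' t : Set L) := by
    have := (Topology.IsInducing.subtypeVal (t := L)).isPreconnected_image
      (s := ((↑) ⁻¹' t : Set L))
    rw [← this, Subtype.image_preimage_coe, inter_eq_right.2 htL]
    exact ht
  have hsub : ((↑) ⁻¹' t : Set L) ⊆ V := hpre.subset_isClopen hcl ⟨⟨x, hxL⟩, hx, hxV⟩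
  exact (hVU (hsub (show (⟨y, hyL⟩ : L) ∈ ((↑) ⁻¹' t : Set L) from hy))) rfl

/-- Module IND. -/
theorem hIND : StIND := ⟨ind_mono, fun Z _ _ L hL h => ind_z0 Z L hL h⟩

end Pool.Agent.Helper80.TR
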